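import Pool.Agent.Helper90.TS.Stmts

/-!
# Module FORTH
-/

set_option autoImplicit false

namespace Pool.Agent.Helper90.TS

variable {V G : Type} [Group G] [MulAction G V]

/-- homogeneity for tuples indexed by any finite type -/
theorem forth_hmg {Q A : Set V} (hH : Hmg G Q A) {ι : Type} [Finite ι] {b b' : ι → V}
    (hb : Set.range b ⊆ Q) (hb' : Set.range b' ⊆ Q) (h : Eqv G (acl G A) b b') :
    ∃ g ∈ Fx G A, tr g Q = Q ∧ g • b = b' := by
  obtain ⟨n, ⟨e⟩⟩ := Finite.exists_equiv_fin ι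
  obtain ⟨g, h1, h2, h3⟩ := hH n (b ∘ e.symm) (b' ∘ e.symm)
    ((Set.range_comp_subset_range _ _).trans hb) ((Set.range_comp_subset_range _ _).trans hb')
    (eqv_comp e.symm h)
  refine ⟨g, h1, h2, ?_⟩
  funext i
  have := congrFun h3 (e i)
  simpa using this

theorem forth_tr {g : G} {Q : Set V} (h : tr g Q = Q) {x : V} (hx : x ∈ Q) : g • x ∈ Q := by
  rw [← h]
  exact ⟨x, hx, rfl⟩

theorem st_FORTH (hLPP : ST_LPP) (hACLB : ST_ACLB) : ST_FORTH := by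
  intro V G _ _ X d Q A h hS hA hAQ hdQ hhA hhd hH hApx k b x hb hhb hx
  obtain ⟨hA1, hA2, -, hA4, -⟩ := hACLB V G X A hA.countable
  have hacl : ∀ {u : G}, u ∈ Fx G A → tr u (acl G A) = acl G A := by
    intro u hu
    rw [← hA4 u, tr_fx hu]
  set β : Fin k ⊕ Unit → V := Sum.elim b (fun _ => x) with hβ
  obtain ⟨n, e, he, hef, hL⟩ := hLPP V G X d hS A hA (Fin k ⊕ Unit) β
  obtain ⟨g, hgA, hgQ, hgd, hge⟩ := hApx n e he hef
  have hhi : h⁻¹ ∈ Fx G A := inv_mem hhA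
  -- first application of LPP
  have hu1 : h⁻¹ * g ∈ Fx G (A ∪ e ∪ ini d n) := by
    rw [fx_union, fx_union]
    refine ⟨⟨mul_mem hhi hgA, ?_⟩, ?_⟩
    · intro y hy
      rw [mul_smul, hge y hy, inv_smul_smul]
    · rintro y ⟨i, hi, rfl⟩
      rw [mul_smul, hgd i hi, inv_smul_smul]
  obtain ⟨κ, hκ, hκβ⟩ := hL ((h⁻¹ * g) • β) ⟨_, hu1, rfl⟩
  obtain ⟨hκ1, hκ2⟩ := fx_union.1 hκ
  have hκi : κ⁻¹ ∈ Fx G (acl G A) := inv_mem hκ1
  have hκd : ∀ i, κ⁻¹ • d i = d i := by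
    intro i
    rw [inv_smul_eq_iff]
    exact (hκ2 _ ⟨i, rfl⟩).symm
  have hκb : κ • b = h⁻¹ • (g • b) := by
    have h1 := congrArg (fun z : Fin k ⊕ Unit → V => z ∘ Sum.inl) hκβ
    rw [← mul_smul]
    exact h1
  have : Finite e := hef
  set t1 : Fin k ⊕ (Fin n ⊕ e) → V :=
    Sum.elim (g • b) (Sum.elim (fun i : Fin n => h • d i) (fun y : e => h • (y : V))) with ht1
  set t2 : Fin k ⊕ (Fin n ⊕ e) → V :=
    Sum.elim (h • b) (Sum.elim (fun i : Fin n => h • d i) (fun y : e => h • (y : V))) with ht2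
  have hheQ : ∀ y : e, h • (y : V) ∈ Q := by
    intro y
    apply hAQ
    rw [← hacl hhA]
    exact ⟨y, he y.2, rfl⟩
  have hr1 : Set.range t1 ⊆ Q := by
    rintro _ ⟨i, rfl⟩
    rcases i with i | i | y
    · exact forth_tr hgQ (hb ⟨i, rfl⟩)
    · exact hhd i
    · exact hheQ y
  have hr2 : Set.range t2 ⊆ Q := by
    rintro _ ⟨i, rfl⟩
    rcases i with i | i | y
    · exact hhb ⟨i, rfl⟩
    · exact hhd i
    · exact hheQ y
  have heq : Eqv G (acl G A) t1 t2 := by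
    refine ⟨h * κ⁻¹ * h⁻¹, ?_, ?_⟩
    · intro y hy
      have h1 : h⁻¹ • y ∈ acl G A := by
        rw [← hacl hhi]
        exact ⟨y, hy, rfl⟩
      rw [mul_smul, mul_smul, hκi _ h1, smul_inv_smul]
    · funext i
      rcases i with i | i | y
      · change (h * κ⁻¹ * h⁻¹) • (g • b) i = (h • b) i
        have h1 : (h * κ⁻¹ * h⁻¹) • (g • b) = h • b := by
          rw [mul_smul, mul_smul, ← hκb, inv_smul_smul]
        exact congrFun h1 i
      · change (h * κ⁻¹ * h⁻¹) • (h • d i) = h • d i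
        rw [mul_smul, mul_smul, inv_smul_smul, hκd]
      · change (h * κ⁻¹ * h⁻¹) • (h • (y : V)) = h • (y : V)
        rw [mul_smul, mul_smul, inv_smul_smul, hκi _ (he y.2)]
  obtain ⟨f, hfA, hfQ, hft⟩ := forth_hmg hH hr1 hr2 heq
  have hfb : f • (g • b) = h • b := by
    have h1 := congrArg (fun z : Fin k ⊕ (Fin n ⊕ e) → V => z ∘ Sum.inl) hft
    exact h1
  have hfd : ∀ i < n, f • (h • d i) = h • d i := by
    intro i hi
    have h1 := congrFun hft (Sum.inr (Sum.inl ⟨i, hi⟩))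
    exact h1
  have hfe : ∀ y ∈ e, f • (h • y) = h • y := by
    intro y hy
    have h1 := congrFun hft (Sum.inr (Sum.inr ⟨y, hy⟩))
    exact h1
  -- second application of LPP
  have hu2 : h⁻¹ * f * g ∈ Fx G (A ∪ e ∪ ini d n) := by
    rw [fx_union, fx_union]
    refine ⟨⟨mul_mem (mul_mem hhi hfA) hgA, ?_⟩, ?_⟩
    · intro y hy
      rw [mul_smul, mul_smul, hge y hy, hfe y hy, inv_smul_smul]
    · rintro y ⟨i, hi, rfl⟩
      rw [mul_smul, mul_smul, hgd i hi, hfd i hi, inv_smul_smul]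
  obtain ⟨κ', hκ', hκβ'⟩ := hL ((h⁻¹ * f * g) • β) ⟨_, hu2, rfl⟩
  obtain ⟨hκ1', hκ2'⟩ := fx_union.1 hκ'
  have hb' : κ' • b = h⁻¹ • (f • (g • b)) := by
    have h1 := congrArg (fun z : Fin k ⊕ Unit → V => z ∘ Sum.inl) hκβ'
    rw [← mul_smul, ← mul_smul]
    exact h1
  have hx' : κ' • x = h⁻¹ • (f • (g • x)) := by
    have h1 := congrFun hκβ' (Sum.inr ())
    rw [← mul_smul, ← mul_smul]
    exact h1
  refine ⟨h * κ', mul_mem hhA (fx_anti hA1 hκ1'), ?_, ?_, ?_, ?_⟩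
  · intro i
    rw [mul_smul, hκ2' _ ⟨i, rfl⟩]
  · intro y hy
    rw [mul_smul, hκ1' y hy]
  · rw [mul_smul, hb', hfb, inv_smul_smul]
  · rw [mul_smul, hx', smul_inv_smul]
    exact forth_tr hfQ (forth_tr hgQ hx)

end Pool.Agent.Helper90.TS
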