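import Pool.Agent.Helper90.TS.Stmts

/-!
# Module INIT: the limit of the approximations on `acl A`
-/

set_option autoImplicit false

namespace Pool.Agent.Helper90.TS

open Filter

theorem st_INIT (hACLB : ST_ACLB) (hTYPS : ST_TYPS) : ST_INIT := by
  intro V G _ _ X d d' Q A hA hg
  obtain ⟨hA1, hA2, -⟩ := hACLB V G X A hA.countable
  choose g hgA hgQ hgd using hg
  set U : Ultrafilter ℕ := hyperfilter ℕ with hU
  have hUn : NeBot (U : Filter ℕ) := U.neBot
  have hev : ∀ i, ∀ᶠ n in (U : Filter ℕ), g n • d i = d' i := by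
    intro i
    have h1 : ∀ᶠ n in (cofinite : Filter ℕ), i < n := by
      rw [Nat.cofinite_eq_atTop]
      exact eventually_gt_atTop i
    exact (h1.filter_mono (hyperfilter_le_cofinite)).mono fun n hn => hgd n i hn
  have hlim : ∀ x : V, ∃ y, x ∈ acl G A ∪ Set.range d →
      ∀ᶠ n in (U : Filter ℕ), g n • x = y := by
    intro x
    by_cases hx : x ∈ acl G A ∪ Set.range d
    · rcases hx with hx | ⟨i, rfl⟩
      · have hfin : {e' | ∃ g ∈ Fx G A, g • x = e'}.Finite := hx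
        have h1 : ∀ᶠ n in (U : Filter ℕ), ∃ y ∈ {e' | ∃ g ∈ Fx G A, g • x = e'}, g n • x = y :=
          Eventually.of_forall fun n => ⟨g n • x, ⟨g n, hgA n, rfl⟩, rfl⟩
        obtain ⟨y, -, hy⟩ := (Ultrafilter.eventually_exists_mem_iff hfin).1 h1
        exact ⟨y, fun _ => hy⟩
      · exact ⟨d' i, fun _ => hev i⟩
    · exact ⟨x, fun h => absurd h hx⟩
  choose σ hσ using hlim
  have hne : (acl G A ∪ Set.range d).Nonempty := ⟨d 0, Or.inr ⟨0, rfl⟩⟩
  obtain ⟨q, hq⟩ := (hA2.union (Set.countable_range d)).exists_eq_range hne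
  have hqm : ∀ i, q i ∈ acl G A ∪ Set.range d := fun i => by
    rw [hq]; exact ⟨i, rfl⟩
  have hEqv : ∀ n, Eqv G A (fun i : Fin n => q i) (fun i : Fin n => σ (q i)) := by
    intro n
    have h1 : ∀ᶠ m in (U : Filter ℕ), ∀ i : Fin n, g m • q i = σ (q i) :=
      eventually_all.2 fun i => hσ _ (hqm i)
    obtain ⟨m, hm⟩ := h1.exists
    exact ⟨g m, hgA m, funext hm⟩
  obtain ⟨h, hhA, hh⟩ := hTYPS V G X A hA.countable q (fun i => σ (q i)) hEqv
  have hh' : ∀ x ∈ acl G A ∪ Set.range d, h • x = σ x := by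
    intro x hx
    rw [hq] at hx
    obtain ⟨i, rfl⟩ := hx
    exact hh i
  refine ⟨h, hhA, ?_, ?_⟩
  · intro i
    have h1 := hσ (d i) (Or.inr ⟨i, rfl⟩)
    obtain ⟨n, h2, h3⟩ := (h1.and (hev i)).exists
    rw [hh' _ (Or.inr ⟨i, rfl⟩), ← h2, h3]
  · intro n e he hef
    have h1 : ∀ᶠ m in (U : Filter ℕ), ∀ x ∈ e, g m • x = σ x :=
      (eventually_all_finite hef).2 fun x hx => hσ x (Or.inl (he hx))
    have h2 : ∀ᶠ m in (U : Filter ℕ), ∀ i : Fin n, g m • d i = σ (d i) :=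
      eventually_all.2 fun i => hσ _ (Or.inr ⟨i, rfl⟩)
    obtain ⟨m, h3, h4⟩ := (h1.and h2).exists
    refine ⟨g m, hgA m, hgQ m, ?_, ?_⟩
    · intro i hi
      rw [hh' _ (Or.inr ⟨i, rfl⟩)]
      exact h4 ⟨i, hi⟩
    · intro x hx
      rw [hh' _ (Or.inl (he hx))]
      exact h3 x hx

end Pool.Agent.Helper90.TS
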